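import Pool.Agent.N124.CU.Stm2

set_option autoImplicit false

/-!
# Project CU, part END: a zero of the norm gives a realisation of the arms
-/

namespace Pool.Agent.N72.CU

open Pool.Agent.N124.CU

namespace EndAux

theorem ne_zero_of {x : Fin 13 → ℝ} (K : Fld x) (j : Fin 13) : (x j : ℂ) ≠ 0 := by
  intro h
  apply K.not_mem ∅ j (by simp)
  rw [h]
  exact zero_mem _

theorem ne_of {x : Fin 13 → ℝ} (K : Fld x) {i j : Fin 13} (hij : i ≠ j) : (x i : ℂ) ≠ x j := by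
  intro h
  apply K.not_mem {i} j (by simpa using hij.symm)
  rw [← h]
  exact K.mem _ _ (by simp)

/-- if `p3 ∈ L` then `w ∈ L` -/
theorem w_mem {L : Subfield ℂ} (hL : QC L) {P : Par} {w p : ℂ} (hw : P.Reg w) (hp : P.RQ w p)
    (hp' : p ∈ L) (h0 : P.de ∈ L) (h1 : P.a1 ∈ L) (h2 : P.ga ∈ L) (h3 : P.bp ∈ L) : w ∈ L := by
  have h := P.RQ_w hw.w0 hp
  refine hL _ _ _ w ?_ ?_ ?_ (Or.inl (hw.pa p hp)) h
  · exact sub_mem (mul_mem h0 hp') h2
  · exact add_mem (mul_mem (sub_mem (one_mem _) hp') (sub_mem (mul_mem h0 hp') h2))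
      (mul_mem (sub_mem h1 h3) hp')
  · exact mul_mem (mul_mem h1 hp') (sub_mem (one_mem _) hp')

/-- if `w ∈ L` then `p ∈ L` -/
theorem p_mem {L : Subfield ℂ} (hL : QC L) {P : Par} {w p : ℂ} (hw : P.Reg w) (hp : P.RQ w p)
    (hw' : w ∈ L) (h0 : P.de ∈ L) (h1 : P.a1 ∈ L) (h2 : P.ga ∈ L) (h3 : P.bp ∈ L) : p ∈ L := by
  have he : P.eta w ∈ L := add_mem h0 (div_mem h1 hw')
  have h1w : 1 + w ∈ L := add_mem (one_mem _) hw'
  refine hL _ _ _ p he ?_ ?_ (Or.inl hw.eta0) hp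
  · exact neg_mem (sub_mem (add_mem (mul_mem h1w he) h2) h3)
  · exact mul_mem h1w h2

end EndAux

open EndAux

theorem t_end : S_end := by
  intro hcommon x K w hw3 hw2 hN
  obtain ⟨p2, ω3, hp2, hω3, h1⟩ := Par.Arm_eq_zero hw3 hN
  obtain ⟨p3, ω2, hp3, hω2, h2⟩ := Par.Arm_eq_zero hw2 h1
  have p20 := hw3.p0 hp2
  have p30 := hw2.p0 hp3
  have ω30 := hw3.ω0 hp2 hω3
  have ω20 := hw2.ω0 hp3 hω2
  -- the field
  set L : Subfield ℂ := K.K {j | j ≠ 12} with hL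
  have hQ : QC L := K.root _
  have m : ∀ j : Fin 13, j ≠ 12 → (x j : ℂ) ∈ L := fun j hj => K.mem _ _ hj
  have n12 : (x 12 : ℂ) ∉ L := K.not_mem _ _ (by simp)
  have m0 := m 0 (by decide)
  have m1 := m 1 (by decide)
  have m2 := m 2 (by decide)
  have m3 := m 3 (by decide)
  have m5 := m 5 (by decide)
  have m6 := m 6 (by decide)
  have m7 := m 7 (by decide)
  have m8 := m 8 (by decide)
  have m10 := m 10 (by decide)
  have key : p3 ∈ L → p2 ∈ L := fun h =>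
    p_mem hQ hw3 hp2 (w_mem hQ hw2 hp3 h m0 m1 m6 m8) m0 m1 m5 m7
  have hI3 := ((arm3 x).RI_iff p20 ω30).mp hω3
  have hI2 := ((arm2 x).RI_iff p30 ω20).mp hω2
  change (1 + ω3 - p2) * ((x 0 : ℂ) + x 3 / ω3 - x 5 / p2) = x 12 at hI3
  change (1 + ω2 - p3) * ((x 0 : ℂ) + x 2 / ω2 - x 6 / p3) = x 10 at hI2
  have c1 : (x 4 : ℂ) ≠ 0 := ne_zero_of K 4
  have c2 : (x 4 : ℂ) - x 9 ≠ 0 := sub_ne_zero.mpr (ne_of K (by decide))
  have c3 : (1 + ω2 ≠ 0 ∨ (x 0 : ℂ) + x 2 / ω2 ≠ 0) := by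
    by_contra hcon
    push Not at hcon
    obtain ⟨ha, hb⟩ := hcon
    have : ω2 = -1 := by linear_combination ha
    rw [this] at hb
    apply ne_of K (i := 0) (j := 2) (by decide)
    linear_combination hb
  have c4 : (1 + ω2 ≠ 0 ∨ 1 + ω3 ≠ 0) := by
    by_contra hcon
    push Not at hcon
    obtain ⟨ha, hb⟩ := hcon
    have e2 : ω2 = -1 := by linear_combination ha
    have e3 : ω3 = -1 := by linear_combination hb
    rw [e2] at hI2
    rw [e3] at hI3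
    have n02 : (x 0 : ℂ) - x 2 ≠ 0 := sub_ne_zero.mpr (ne_of K (by decide))
    have q3 : p3 = ((x 6 : ℂ) - x 10) / (x 0 - x 2) := by
      rw [eq_div_iff n02]
      have : (x 6 : ℂ) / p3 * p3 = x 6 := div_mul_cancel₀ _ p30
      linear_combination (-1) * hI2 + this
    have r3 : p3 ∈ L := by
      rw [q3]
      exact div_mem (sub_mem m6 m10) (sub_mem m0 m2)
    have r2 := key r3
    apply n12
    have : (x 5 : ℂ) / p2 * p2 = x 5 := div_mul_cancel₀ _ p20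
    have e : (x 12 : ℂ) = x 5 - p2 * (x 0 - x 3) := by
      linear_combination (-1) * hI3 + this
    rw [e]
    exact sub_mem m5 (mul_mem r2 (sub_mem m0 m3))
  have c5 : ((x 0 : ℂ) + x 2 / ω2 ≠ 0 ∨ (x 0 : ℂ) + x 3 / ω3 ≠ 0) := by
    by_contra hcon
    push Not at hcon
    obtain ⟨ha, hb⟩ := hcon
    have n0 := ne_zero_of K 0
    have e2 : ω2 = -x 2 / x 0 := by
      have : (x 2 : ℂ) / ω2 * ω2 = x 2 := div_mul_cancel₀ _ ω20
      rw [eq_div_iff n0]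
      linear_combination ω2 * ha - this
    have e3 : ω3 = -x 3 / x 0 := by
      have : (x 3 : ℂ) / ω3 * ω3 = x 3 := div_mul_cancel₀ _ ω30
      rw [eq_div_iff n0]
      linear_combination ω3 * hb - this
    have o2 : ω2 ∈ L := by rw [e2]; exact div_mem (neg_mem m2) m0
    have o3 : ω3 ∈ L := by rw [e3]; exact div_mem (neg_mem m3) m0
    rw [ha] at hI2
    rw [hb] at hI3
    have n610 : (x 6 : ℂ) - x 10 ≠ 0 := sub_ne_zero.mpr (ne_of K (by decide))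
    have q3 : p3 = (x 6 : ℂ) * (1 + ω2) / (x 6 - x 10) := by
      rw [eq_div_iff n610]
      have : (x 6 : ℂ) / p3 * p3 = x 6 := div_mul_cancel₀ _ p30
      linear_combination p3 * hI2 + (1 + ω2 - p3) * this
    have r3 : p3 ∈ L := by
      rw [q3]
      exact div_mem (mul_mem m6 (add_mem (one_mem _) o2)) (sub_mem m6 m10)
    have r2 := key r3
    apply n12
    rw [← hI3]
    exact mul_mem (sub_mem (add_mem (one_mem _) o3) r2) (sub_mem (zero_mem _) (div_mem m5 r2))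
  obtain ⟨p, hp, k1, k2⟩ := hcommon (x 4) ((x 4 : ℂ) - x 9) ((x 4 : ℂ) - x 11) (1 + ω3)
    ((x 0 : ℂ) + x 3 / ω3) (1 + ω2) ((x 0 : ℂ) + x 2 / ω2) c1 c2 c3 c4 c5 h2
  exact ⟨p, p2, p3, ω2, ω3, hp, p20, p30, ω20, ω30, hp2, hω3, hp3, hω2, k1, k2⟩

end Pool.Agent.N72.CU
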